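import Pool.Agent.Work.MP_0c4bbf_an.AllDim

/-!
A compact subset of the sphere that is not a zero set of the ball algebra although the functions
vanishing on it have no further common zero, in every dimension `n ≥ 2`.
-/

set_option autoImplicit false

open Metric

namespace Pool.Agent.Results.MP_0c4bbf_an.AllDims

variable {n : ℕ}

/-- The ball algebra: continuous on the closed unit ball, holomorphic in the open unit ball. -/
def InBallAlgebra (f : EuclideanSpace ℂ (Fin n) → ℂ) : Prop :=
  ContinuousOn f (closedBall 0 1) ∧ DifferentiableOn ℂ f (ball 0 1)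

/-- `K` is the exact zero set in the closed ball of one member of the ball algebra. -/
def IsZSet (K : Set (EuclideanSpace ℂ (Fin n))) : Prop :=
  ∃ f, InBallAlgebra f ∧ {z ∈ closedBall 0 1 | f z = 0} = K

/-- The common zeros, in the closed ball and outside `K`, of all members of the ball algebra
that vanish on `K`. -/
def extraZeros (K : Set (EuclideanSpace ℂ (Fin n))) : Set (EuclideanSpace ℂ (Fin n)) :=
  {z ∈ closedBall 0 1 \ K | ∀ f, InBallAlgebra f → (∀ w ∈ K, f w = 0) → f z = 0}

theorem result (n : ℕ) (hn : 2 ≤ n) : ∃ K : Set (EuclideanSpace ℂ (Fin n)),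
    IsCompact K ∧ K ⊆ sphere 0 1 ∧ ¬ IsZSet K ∧ extraZeros K = ∅ ∧
    ∃ g : Fin n → EuclideanSpace ℂ (Fin n) → ℂ, (∀ j, InBallAlgebra (g j)) ∧
      {z ∈ closedBall 0 1 | ∀ j, g j z = 0} = K := by
  obtain ⟨K, h1, h2, h3, g, h4, h5⟩ := Work.MP_0c4bbf_an.all_dim n hn
  refine ⟨K, h1, h2, h3, Set.eq_empty_of_forall_notMem fun z hz => hz.1.2 ?_, g, h4, h5⟩
  rw [← h5]
  refine ⟨hz.1.1, fun j => hz.2 (g j) (h4 j) fun w hw => ?_⟩
  rw [← h5] at hw
  exact hw.2 j

end Pool.Agent.Results.MP_0c4bbf_an.AllDims
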